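import Pool.Agent.Work.MP_75fda7_co.Basic

set_option autoImplicit false

namespace Pool.Agent.Results.MP_75fda7_co.LinearFour

open Pool.Agent.Work.MP_75fda7_co

/-- Every finite tree `T` of maximum degree at most four satisfies `γ_e(T) ≥ n(T) / 7056`. -/
theorem result (V : Type) [Fintype V] (T : SimpleGraph V) (hT : T.IsTree)
    (hdeg : ∀ v, (T.neighborSet v).ncard ≤ 4) : Fintype.card V ≤ 7056 * gammaE T := by
  classical
  obtain ⟨S, hS, hcard⟩ := exists_gammaE T
  have h1 := card_le_of_isExpDom hT (fun x => by
    rw [← SimpleGraph.card_neighborSet_eq_degree, ← Set.toFinset_card,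
      ← Set.ncard_eq_toFinset_card']
    exact hdeg x) S hS
  rw [hcard] at h1
  exact_mod_cast h1

end Pool.Agent.Results.MP_75fda7_co.LinearFour
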