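import Pool.Agent.Work.MP_75fda7_co.Family

set_option autoImplicit false

namespace Pool.Agent.Results.MP_75fda7_co.Threshold

open Pool.Agent.Work.MP_75fda7_co

/-- There is a constant `c > 0` such that every finite tree `T` of maximum degree at most `Δ` with
`n ≥ 2` vertices satisfies `γ_e(T) ≥ c * n / log n`. -/
def HasBound (Δ : ℕ) : Prop :=
  ∃ c : ℝ, 0 < c ∧ ∀ (V : Type) [Fintype V] (T : SimpleGraph V), T.IsTree →
    (∀ v, (T.neighborSet v).ncard ≤ Δ) → 2 ≤ Fintype.card V →
    c * (Fintype.card V / Real.log (Fintype.card V)) ≤ gammaE T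

theorem degree_eq_ncard {V : Type} [Fintype V] (T : SimpleGraph V) [DecidableRel T.Adj] (v : V) :
    T.degree v = (T.neighborSet v).ncard := by
  rw [← SimpleGraph.card_neighborSet_eq_degree, Set.ncard_eq_toFinset_card', Set.toFinset_card]

theorem hasBound_of_le {Δ : ℕ} (hΔ : Δ ≤ 4) : HasBound Δ := by
  have hl2 : 0 < Real.log 2 := Real.log_pos (by norm_num)
  refine ⟨Real.log 2 / 7056, by positivity, ?_⟩
  intro V _ T hT hdeg hn
  classical
  obtain ⟨S, hS, hcard⟩ := exists_gammaE T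
  have h1 := card_le_of_isExpDom hT (fun x => by rw [degree_eq_ncard]; exact (hdeg x).trans hΔ) S hS
  rw [hcard] at h1
  have hn' : (2 : ℝ) ≤ (Fintype.card V : ℝ) := by exact_mod_cast hn
  have hln : Real.log 2 ≤ Real.log (Fintype.card V) := Real.log_le_log (by norm_num) hn'
  have hln0 : 0 < Real.log (Fintype.card V) := lt_of_lt_of_le hl2 hln
  have h2 : Real.log 2 / 7056 * (Fintype.card V / Real.log (Fintype.card V)) =
      (Real.log 2 / Real.log (Fintype.card V)) * (Fintype.card V / 7056) := by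
    ring
  have h3 : Real.log 2 / Real.log (Fintype.card V) ≤ 1 := (div_le_one hln0).2 hln
  rw [h2]
  calc (Real.log 2 / Real.log (Fintype.card V)) * ((Fintype.card V : ℝ) / 7056)
      ≤ 1 * ((Fintype.card V : ℝ) / 7056) := by
        apply mul_le_mul_of_nonneg_right h3
        positivity
    _ ≤ gammaE T := by linarith

theorem not_hasBound {Δ : ℕ} (hΔ : 5 ≤ Δ) : ¬ HasBound Δ := by
  rintro ⟨c, hc, h⟩
  obtain ⟨s, hs⟩ : ∃ s : ℕ, 10 / 2 ^ s < c := by
    obtain ⟨s, hs⟩ := exists_pow_lt_of_lt_one (show (0 : ℝ) < c / 10 by positivity)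
      (show (1 / 2 : ℝ) < 1 by norm_num)
    refine ⟨s, ?_⟩
    rw [one_div, inv_pow] at hs
    have hpow : (0 : ℝ) < 2 ^ s := by positivity
    rw [div_lt_iff₀ hpow]
    have := mul_lt_mul_of_pos_right hs hpow
    rw [inv_mul_cancel₀ hpow.ne'] at this
    linarith
  set D : ℕ := 2 ^ (s + 2) with hD
  have hD1 : 1 ≤ D := Nat.one_le_two_pow
  have hDr : (D : ℝ) = 4 * 2 ^ s := by
    rw [hD]
    push_cast
    rw [pow_add]
    ring
  have hpow : (0 : ℝ) < 2 ^ s := by positivity
  have hcond : (2 : ℝ) ^ (s + 1) ≤ 2 * cc D := by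
    unfold cc
    rw [hDr, pow_succ]
    linarith
  classical
  have : Fintype (W D (D + s + 1)) := Fintype.ofFinite _
  set n : ℕ := Fintype.card (W D (D + s + 1)) with hn
  have hnge : 4 ^ (D + s) ≤ n := card_W_ge D s
  have h4 : 4 ≤ 4 ^ (D + s) := by
    calc 4 = 4 ^ 1 := by norm_num
      _ ≤ 4 ^ (D + s) := Nat.pow_le_pow_right (by norm_num) (by omega)
  have hbound := h (W D (D + s + 1)) (tr D (D + s + 1)) (tr_isTree _ _)
    (fun v => by rw [← degree_eq_ncard]; exact (degree_le v).trans hΔ) (by omega)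
  rw [← hn] at hbound
  have hgam : (gammaE (tr D (D + s + 1)) : ℝ) ≤ 4 ^ D := by
    exact_mod_cast gammaE_tr_le D s hD1 hcond
  set m : ℝ := 4 ^ (D + s) with hm
  have hmn : m ≤ (n : ℝ) := by
    rw [hm]
    exact_mod_cast hnge
  have hm4 : (4 : ℝ) ≤ m := by
    rw [hm]
    exact_mod_cast h4
  have he : Real.exp 1 ≤ m := by
    have := Real.exp_one_lt_d9
    linarith
  have hanti := Real.log_div_self_antitoneOn (Set.mem_Ici.2 he) (Set.mem_Ici.2 (he.trans hmn)) hmn
  simp only at hanti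
  have hnpos : (0 : ℝ) < (n : ℝ) := by linarith
  have hlogn : 0 < Real.log n := Real.log_pos (by linarith)
  have hmpos : 0 < m := by linarith
  have h1 : c ≤ 4 ^ D * (Real.log n / n) := by
    have h2 : c * ((n : ℝ) / Real.log n) ≤ 4 ^ D := hbound.trans hgam
    have h3 : 0 ≤ Real.log n / n := by positivity
    have h5 := mul_le_mul_of_nonneg_right h2 h3
    have h6 : c * ((n : ℝ) / Real.log n) * (Real.log n / n) = c := by
      field_simp
    rwa [h6] at h5
  have h2 : (4 : ℝ) ^ D * (Real.log n / n) ≤ 4 ^ D * (Real.log m / m) :=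
    mul_le_mul_of_nonneg_left hanti (by positivity)
  have hlogm : Real.log m ≤ (D + s) * 2 := by
    rw [hm, Real.log_pow]
    have hl4 : Real.log 4 ≤ 2 := by
      rw [show (4 : ℝ) = 2 ^ 2 by norm_num, Real.log_pow]
      have := Real.log_two_lt_d9
      push_cast
      linarith
    push_cast
    have h0 : (0 : ℝ) ≤ (D : ℝ) + s := by positivity
    nlinarith
  have hs2 : (s : ℝ) ≤ 2 ^ s := by
    exact_mod_cast (Nat.lt_two_pow_self (n := s)).le
  have h3 : (4 : ℝ) ^ D * (Real.log m / m) ≤ 10 / 2 ^ s := by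
    have hmm : m = 4 ^ D * (2 ^ s * 2 ^ s) := by
      rw [hm, pow_add, ← mul_pow]
      norm_num
    rw [← mul_div_assoc, div_le_div_iff₀ hmpos hpow]
    have h6 : Real.log m ≤ 10 * 2 ^ s := by
      rw [hDr] at hlogm
      linarith
    calc (4 : ℝ) ^ D * Real.log m * 2 ^ s ≤ 4 ^ D * (10 * 2 ^ s) * 2 ^ s := by
          apply mul_le_mul_of_nonneg_right _ hpow.le
          exact mul_le_mul_of_nonneg_left h6 (by positivity)
      _ = 10 * m := by rw [hmm]; ring
  linarith

/-- The bound `γ_e(T) = Ω(n(T) / log n(T))` for trees of maximum degree at most `Δ` does not hold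
for every `Δ`; it holds exactly for `Δ ≤ 4`. -/
theorem result : (¬ ∀ Δ : ℕ, HasBound Δ) ∧ ∀ Δ : ℕ, (HasBound Δ ↔ Δ ≤ 4) := by
  refine ⟨fun h => not_hasBound le_rfl (h 5), fun Δ => ⟨fun h => ?_, hasBound_of_le⟩⟩
  by_contra hcon
  exact not_hasBound (by omega) h

end Pool.Agent.Results.MP_75fda7_co.Threshold
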